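import Pool.Agent.Helper57.BG.Stmts
import Pool.Agent.Helper8.AP.Ph

/-!
# Block T5 of (A'): the tiny type II sum, `x ≠ x'`
-/

set_option autoImplicit false
set_option maxHeartbeats 1000000

open Finset

namespace Pool.Agent.Helper97.AP

open Pool.Agent.Helper57.BG

/-- elements of `(P, 2P]` in one residue class -/
theorem card_class {P : ℝ} (hP : 0 ≤ P) {x : ℕ} (hx : 0 < x) (S : Finset ℕ)
    (hS : ∀ w ∈ S, P < w ∧ (w : ℝ) ≤ 2 * P) (hmod : ∀ w ∈ S, ∀ w' ∈ S, w ≡ w' [MOD x]) :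
    (S.card : ℝ) ≤ P / x + 1 := by
  rcases S.eq_empty_or_nonempty with h | hne
  · rw [h, card_empty, Nat.cast_zero]
    positivity
  obtain ⟨m, hm, hmin⟩ := S.exists_min_image id hne
  have hx' : (0 : ℝ) < x := by exact_mod_cast hx
  have h1 : S.card ≤ (range ⌈P / x⌉₊).card := by
    refine card_le_card_of_injOn (fun w => (w - m) / x) (fun w hw => ?_) ?_
    · have hw' : w ∈ S := hw
      rw [coe_range, Set.mem_Iio]
      have h2 : m ≤ w := hmin w hw'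
      have h3 : x ∣ w - m := (Nat.modEq_iff_dvd' h2).1 (hmod m hm w hw')
      obtain ⟨t, ht⟩ := h3
      have h4 : (w - m) / x = t := by rw [ht, Nat.mul_div_cancel_left _ hx]
      change (w - m) / x < _
      rw [h4, Nat.lt_ceil, lt_div_iff₀ hx']
      have h5 : (w : ℝ) = m + x * t := by
        have : w = m + x * t := by omega
        exact_mod_cast this
      have h6 := (hS w hw').2
      have h7 := (hS m hm).1
      nlinarith
    · intro w hw w' hw' h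
      have hw1 : w ∈ S := hw
      have hw2 : w' ∈ S := hw'
      change (w - m) / x = (w' - m) / x at h
      have h2 : m ≤ w := hmin w hw1
      have h2' : m ≤ w' := hmin w' hw2
      obtain ⟨t, ht⟩ := (Nat.modEq_iff_dvd' h2).1 (hmod m hm w hw1)
      obtain ⟨t', ht'⟩ := (Nat.modEq_iff_dvd' h2').1 (hmod m hm w' hw2)
      rw [ht, ht', Nat.mul_div_cancel_left _ hx, Nat.mul_div_cancel_left _ hx] at h
      rw [h] at ht
      omega
  rw [card_range] at h1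
  calc (S.card : ℝ) ≤ (⌈P / x⌉₊ : ℕ) := by exact_mod_cast h1
    _ ≤ P / x + 1 := (Nat.ceil_lt_add_one (by positivity)).le

theorem card_real {Y : ℝ} (hY : 0 ≤ Y) (S : Finset ℕ) (hS : ∀ w ∈ S, 0 < w ∧ (w : ℝ) ≤ Y) :
    (S.card : ℝ) ≤ Y := by
  have h1 : S ⊆ Ioc 0 ⌊Y⌋₊ := fun w hw => by
    rw [mem_Ioc]
    exact ⟨(hS w hw).1, Nat.le_floor (hS w hw).2⟩
  have h2 := card_le_card h1
  rw [Nat.card_Ioc, Nat.sub_zero] at h2
  calc (S.card : ℝ) ≤ (⌊Y⌋₊ : ℕ) := by exact_mod_cast h2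
    _ ≤ Y := Nat.floor_le hY

theorem norm_ee (x : ℝ) : ‖ee x‖ = 1 := by
  unfold ee
  rw [show (2 * Real.pi * x * Complex.I : ℂ) = ((2 * Real.pi * x : ℝ) : ℂ) * Complex.I by
    push_cast; ring]
  exact Complex.norm_exp_ofReal_mul_I _

theorem norm_ph (V : ℕ) (c n : ℤ) : ‖ph V c n‖ = 1 := Pool.Agent.Helper8.AP.norm_ph V c n

theorem ph_congr {V : ℕ} {c n n' : ℤ} (hn : n ≡ n' [ZMOD V]) : ph V c n = ph V c n' :=
  Pool.Agent.Helper8.AP.ph_congr rfl hn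

theorem q_pos {p : TD} (h : p.Ok) {q : ℕ} (hq : q ∈ p.QQ) : 0 < q := by
  have h1 := (h.hQQ q hq).2.1
  have h2 := h.hQ
  by_contra h3
  have h4 : q = 0 := by omega
  rw [h4, Nat.cast_zero] at h1
  linarith

theorem x_pos {p : TD} (h : p.Ok) {x : ℕ} (hx : x ∈ p.XX) : 0 < x := by
  have h1 := (h.hXX x hx).1
  have h2 := h.hX
  by_contra h3
  have h4 : x = 0 := by omega
  rw [h4, Nat.cast_zero] at h1
  linarith

/-- the number of pairs -/
theorem card_A {p : TD} (h : p.Ok) (hXP : p.X ≤ p.P) {x : ℕ} (hx : x ∈ p.XX) (ρ : ℕ)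
    (A : Finset (ℕ × ℕ)) (hA : ∀ a ∈ A, a.1 ∈ p.QQ ∧ a.2 ∈ p.W ∧ Nat.Coprime (a.1 * a.2) x ∧
      a.1 * a.2 ≡ ρ [MOD x]) : (A.card : ℝ) ≤ 4 * p.Q * p.P / p.X := by
  have hX := h.hX
  have hP := h.hP
  have hQ := h.hQ
  have hx0 := x_pos h hx
  have hxX := (h.hXX x hx).1
  have hx' : (0 : ℝ) < x := by exact_mod_cast hx0
  have h1 : A.card = ∑ q ∈ p.QQ, (A.filter (fun a => a.1 = q)).card :=
    card_eq_sum_card_fiberwise fun a ha => (hA a ha).1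
  have h2 : ∀ q ∈ p.QQ, ((A.filter (fun a => a.1 = q)).card : ℝ) ≤ 2 * p.P / p.X := by
    intro q hq
    have h3 : ((A.filter (fun a => a.1 = q)).image Prod.snd).card =
        (A.filter (fun a => a.1 = q)).card := by
      refine card_image_of_injOn fun a ha b hb hab => ?_
      rw [mem_coe, mem_filter] at ha hb
      exact Prod.ext (ha.2.trans hb.2.symm) hab
    rw [← h3]
    refine (card_class (P := p.P) (by linarith) hx0 _ (fun w hw => ?_) (fun w hw w' hw' => ?_)).trans ?_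
    · obtain ⟨a, ha, rfl⟩ := mem_image.1 hw
      exact (h.hW a.2 (hA a (mem_filter.1 ha).1).2.1).2
    · obtain ⟨a, ha, rfl⟩ := mem_image.1 hw
      obtain ⟨b, hb, rfl⟩ := mem_image.1 hw'
      rw [mem_filter] at ha hb
      obtain ⟨-, -, ha1, ha2⟩ := hA a ha.1
      obtain ⟨-, -, hb1, hb2⟩ := hA b hb.1
      rw [ha.2] at ha1 ha2
      rw [hb.2] at hb2
      refine Nat.ModEq.cancel_left_of_coprime (c := q) ?_ (ha2.trans hb2.symm)
      rw [Nat.coprime_comm] at ha1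
      exact Nat.Coprime.coprime_mul_right_right ha1
    · have h4 : p.P / x ≤ p.P / p.X := div_le_div_of_nonneg_left (by linarith) (by linarith) hxX.le
      have h5 : 1 ≤ p.P / p.X := by rw [one_le_div (by linarith)]; exact hXP
      have h6 : 2 * p.P / p.X = p.P / p.X + p.P / p.X := by ring
      linarith
  have h3 : (p.QQ.card : ℝ) ≤ 2 * p.Q := card_real (by linarith) _ fun q hq =>
    ⟨q_pos h hq, (h.hQQ q hq).2.2.1⟩
  rw [h1]
  push_cast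
  calc ∑ q ∈ p.QQ, ((A.filter (fun a => a.1 = q)).card : ℝ) ≤ ∑ q ∈ p.QQ, 2 * p.P / p.X :=
        sum_le_sum h2
    _ = p.QQ.card * (2 * p.P / p.X) := by rw [sum_const, nsmul_eq_mul]
    _ ≤ 2 * p.Q * (2 * p.P / p.X) := by gcongr
    _ = 4 * p.Q * p.P / p.X := by ring

/-- the bound of the second Cauchy inequality -/
theorem scb_le {p : TD} (h : p.Ok) {x q' : ℕ} (hx : x ∈ p.XX) (hq' : q' ∈ p.QQ) {C : ℝ} (hC : 0 ≤ C)
    (hC' : C ≤ p.H * |(p.k : ℝ)| * p.X) :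
    scb (2 * p.P) (⌊4 * p.Q * p.P⌋₊ : ℕ) x q' p.P C q'.primeFactors.card ≤ p.scE := by
  have hX := h.hX
  have hP := h.hP
  have hQ := h.hQ
  have hx0 := x_pos h hx
  have hxX := (h.hXX x hx).1
  have hx' : (0 : ℝ) < x := by exact_mod_cast hx0
  have hq0 := q_pos h hq'
  obtain ⟨-, hqQ, hqQ2, hqK, -⟩ := h.hQQ q' hq'
  have hq'' : (0 : ℝ) < q' := by exact_mod_cast hq0
  have hQP : (0 : ℝ) ≤ 4 * p.Q * p.P := by positivity
  have hN : ((⌊4 * p.Q * p.P⌋₊ : ℕ) : ℝ) ≤ 4 * p.Q * p.P := Nat.floor_le hQP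
  have hN0 : (0 : ℝ) ≤ ((⌊4 * p.Q * p.P⌋₊ : ℕ) : ℝ) := Nat.cast_nonneg _
  have h1 : ((⌊4 * p.Q * p.P⌋₊ : ℕ) : ℝ) / x ≤ 4 * p.Q * p.P / p.X :=
    div_le_div₀ hQP hN (by linarith) hxX.le
  have h2 : ((⌊4 * p.Q * p.P⌋₊ : ℕ) : ℝ) / (x * q' * p.P ^ 2) ≤ 4 / (p.X * p.P) := by
    calc ((⌊4 * p.Q * p.P⌋₊ : ℕ) : ℝ) / (x * q' * p.P ^ 2)
        ≤ 4 * p.Q * p.P / (p.X * p.Q * p.P ^ 2) := by
          refine div_le_div₀ hQP hN (by positivity) ?_
          have := mul_le_mul hxX.le hqQ.le (by linarith) hx'.le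
          exact mul_le_mul_of_nonneg_right this (by positivity)
      _ = 4 / (p.X * p.P) := by
          have : p.X ≠ 0 := by linarith
          have : p.Q ≠ 0 := by linarith
          have : p.P ≠ 0 := by linarith
          field_simp
  have h3 : 4 * (q' : ℝ) * p.P ^ 2 ≤ 8 * p.Q * p.P ^ 2 := by
    have : 4 * (q' : ℝ) ≤ 8 * p.Q := by linarith
    exact mul_le_mul_of_nonneg_right this (by positivity)
  have h4 : (1 : ℝ) ≤ 4 * q' * p.P ^ 2 := by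
    have h5 : (1 : ℝ) ≤ q' := by exact_mod_cast hq0
    nlinarith
  have h5 : 0 ≤ Real.log (4 * q' * p.P ^ 2) := Real.log_nonneg h4
  have h6 : Real.log (4 * q' * p.P ^ 2) ≤ Real.log (8 * p.Q * p.P ^ 2) :=
    Real.log_le_log (by linarith) h3
  have h7 : (2 : ℝ) ^ (q'.primeFactors.card + 3) ≤ 2 ^ (p.K + 3) :=
    pow_le_pow_right₀ (by norm_num) (by omega)
  have h8 : (4 * q' * p.P ^ 2 : ℝ) ^ (3 / 4 : ℝ) ≤ (8 * p.Q * p.P ^ 2) ^ (3 / 4 : ℝ) :=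
    Real.rpow_le_rpow (by linarith) h3 (by norm_num)
  have h9 : C * p.P ≤ p.H * |(p.k : ℝ)| * p.X * p.P := mul_le_mul_of_nonneg_right hC' (by linarith)
  have h10 : (C * p.P) ^ (1 / 4 : ℝ) ≤ (p.H * |(p.k : ℝ)| * p.X * p.P) ^ (1 / 4 : ℝ) :=
    Real.rpow_le_rpow (by positivity) h9 (by norm_num)
  unfold scb TD.scE
  have e1 : (2 * p.P) * (((⌊4 * p.Q * p.P⌋₊ : ℕ) : ℝ) / x + 1) ≤ 2 * p.P * (4 * p.Q * p.P / p.X + 1) := by
    gcongr
  have e2 : (2 * p.P) ^ 2 * ((((⌊4 * p.Q * p.P⌋₊ : ℕ) : ℝ) / (x * q' * p.P ^ 2) + 1) * (C * p.P) +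
      2 ^ (q'.primeFactors.card + 3) * (4 * q' * p.P ^ 2) ^ (3 / 4 : ℝ) * (C * p.P) ^ (1 / 4 : ℝ) *
        (1 + Real.log (4 * q' * p.P ^ 2))) ≤
      4 * p.P ^ 2 * ((4 / (p.X * p.P) + 1) * (p.H * |(p.k : ℝ)| * p.X * p.P) +
      2 ^ (p.K + 3) * (8 * p.Q * p.P ^ 2) ^ (3 / 4 : ℝ) * (p.H * |(p.k : ℝ)| * p.X * p.P) ^ (1 / 4 : ℝ) *
        (1 + Real.log (8 * p.Q * p.P ^ 2))) := by
    rw [show (2 * p.P) ^ 2 = 4 * p.P ^ 2 by ring]
    gcongr
  exact add_le_add e1 e2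

theorem scE_nonneg {p : TD} (h : p.Ok) : 0 ≤ p.scE := by
  have hX := h.hX
  have hP := h.hP
  have hQ := h.hQ
  have h1 : (1 : ℝ) ≤ 8 * p.Q * p.P ^ 2 := by nlinarith [one_le_pow₀ hP (n := 2)]
  have h2 : 0 ≤ Real.log (8 * p.Q * p.P ^ 2) := Real.log_nonneg h1
  unfold TD.scE
  positivity

/-- the sum over `w'` -/
noncomputable def inn (p : TD) (x x' q' : ℕ) (j η : ℤ) (a : ℕ × ℕ) : ℂ :=
  ∑ w ∈ (p.W.filter (fun w => Nat.Coprime w (x * x'))).filter (fun w => Nat.Coprime w (a.1 * a.2)),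
    (starRingEnd ℂ) (p.lam w) *
      (((FF (4 * p.M / p.q1) η ((a.1 * a.2 : ℕ) * (q' * w : ℕ)) : ℝ) : ℂ) *
        ee (η * p.k / (x * p.q1 * (a.1 * a.2 : ℕ) * (q' * w : ℕ))) *
        ph x (-(η * p.k)) (p.q1 * (a.1 * a.2 : ℕ) * (q' * w : ℕ)) *
        ph (q' * w) (-(η * p.k * j)) (x * x' * (a.1 * a.2 : ℕ)))

/-- the bound for fixed `x`, `x'`, `q'`, `η` and the class of `q2` -/
theorem cell (hFF : Stmt_FFx) (hSCF : Stmt_SCF) {p : TD} (h : p.Ok) (hXP : p.X ≤ p.P)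
    (hH : (p.H : ℝ) * |(p.k : ℝ)| ≤ p.Q * p.P) {x x' q' : ℕ} (hx : x ∈ p.XX) (hx' : x' ∈ p.XX)
    (hq' : q' ∈ p.QQ) (hxq : Nat.Coprime x q') (hxq' : Nat.Coprime x' q') (hne : x ≠ x') {j : ℤ}
    (hj : (x' : ℤ) - x = p.q1 * j) {η : ℤ} (hη : η ∈ (Icc (-(p.H : ℤ)) p.H).erase 0) (ρ : ℕ)
    (A : Finset (ℕ × ℕ)) (hA : ∀ a ∈ A, a.1 ∈ p.QQ ∧ a.2 ∈ p.W ∧ Nat.Coprime (a.1 * a.2) x ∧
      Nat.Coprime (a.1 * a.2) q' ∧ a.1 * a.2 ≡ ρ [MOD x]) :
    ∑ a ∈ A, ‖inn p x x' q' j η a‖ ≤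
      32 * p.M / (p.Q * p.P) ^ 2 * Real.sqrt (30 * p.Q * p.P * p.R0 * p.scE / p.X) := by
  have hX := h.hX
  have hP := h.hP
  have hQ := h.hQ
  have hM := h.hM
  have hx0 := x_pos h hx
  have hx0' := x_pos h hx'
  have hxX := (h.hXX x hx).1
  have hxX2 := (h.hXX x hx).2.1
  have hxX' := (h.hXX x' hx').1
  have hxX2' := (h.hXX x' hx').2.1
  have hxr : (0 : ℝ) < x := by exact_mod_cast hx0
  have hq0 := q_pos h hq'
  obtain ⟨hqsq, hqQ, hqQ2, hqK, -⟩ := h.hQQ q' hq'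
  have hqr : (0 : ℝ) < q' := by exact_mod_cast hq0
  have hq1 := h.hq1
  have hq1r : (1 : ℝ) ≤ p.q1 := by exact_mod_cast hq1
  have hη0 : η ≠ 0 := (mem_erase.1 hη).1
  have hηH : |(η : ℝ)| ≤ p.H := by
    have h1 := (mem_Icc.1 (mem_erase.1 hη).2)
    have h2 : |η| ≤ (p.H : ℤ) := abs_le.2 h1
    calc |(η : ℝ)| = ((|η| : ℤ) : ℝ) := by rw [Int.cast_abs]
      _ ≤ (((p.H : ℕ) : ℤ) : ℝ) := by exact_mod_cast h2
      _ = p.H := by rw [Int.cast_natCast]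
  have hj0 : j ≠ 0 := by
    rintro rfl
    rw [mul_zero, sub_eq_zero] at hj
    exact hne (by exact_mod_cast hj.symm)
  have hjX : |(j : ℝ)| ≤ p.X := by
    have h1 : ((x' : ℝ) - x) = p.q1 * j := by exact_mod_cast hj
    have h2 : |(p.q1 : ℝ) * j| ≤ p.X := by
      rw [← h1, abs_le]
      constructor <;> linarith
    rw [abs_mul, Nat.abs_cast] at h2
    nlinarith [abs_nonneg (j : ℝ)]
  have hQP : (0 : ℝ) < p.Q * p.P := by positivity
  set B : ℝ := 32 * p.M / (p.Q * p.P) ^ 2 with hBdef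
  have hB0 : 0 ≤ B := by positivity
  have hqw : ∀ a ∈ A, p.Q * p.P ≤ ((a.1 * a.2 : ℕ) : ℝ) ∧ ((a.1 * a.2 : ℕ) : ℝ) ≤ 4 * p.Q * p.P := by
    intro a ha
    obtain ⟨h1, h2, -⟩ := hA a ha
    obtain ⟨-, h3, h4, -⟩ := h.hQQ a.1 h1
    obtain ⟨-, h5, h6⟩ := h.hW a.2 h2
    push_cast
    constructor
    · exact mul_le_mul h3.le h5.le (by linarith) (by linarith)
    · have := mul_le_mul h4 h6 (by linarith) (by linarith)
      linarith
  have hFB : ∀ a ∈ A, _ := fun a ha => hFF (4 * p.M / p.q1) ((a.1 * a.2 * q' : ℕ) : ℝ) p.P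
    (η * p.k / (x * p.q1 * (a.1 * a.2 : ℕ) * q')) (by positivity)
    (by
      have h1 := (hqw a ha).1
      push_cast at h1 ⊢
      have : (0 : ℝ) < a.1 * a.2 := by linarith
      positivity)
    h.hP
    (by
      have h1 := (hqw a ha).1
      have h0 : (0 : ℝ) < ((a.1 * a.2 : ℕ) : ℝ) := by linarith
      have hx1 : (1 : ℝ) ≤ x := by exact_mod_cast hx0
      have hq1' : (1 : ℝ) ≤ q' := by exact_mod_cast hq0
      have hden : p.Q * p.P ≤ x * p.q1 * (a.1 * a.2 : ℕ) * q' := by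
        calc p.Q * p.P ≤ 1 * 1 * ((a.1 * a.2 : ℕ) : ℝ) * 1 := by linarith
          _ ≤ x * p.q1 * (a.1 * a.2 : ℕ) * q' := by gcongr
      have hden0 : (0 : ℝ) < x * p.q1 * (a.1 * a.2 : ℕ) * q' := by linarith
      rw [abs_div, abs_mul, abs_of_pos hden0, div_le_iff₀ hden0]
      calc |(η : ℝ)| * |(p.k : ℝ)| ≤ p.H * |(p.k : ℝ)| := by gcongr
        _ ≤ p.Q * p.P := hH
        _ ≤ 1 * (x * p.q1 * (a.1 * a.2 : ℕ) * q') := by linarith
        _ ≤ p.P * (x * p.q1 * (a.1 * a.2 : ℕ) * q') := by gcongr)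
    η
  have hBle : ∀ a ∈ A, 8 * (4 * p.M / p.q1) / (((a.1 * a.2 * q' : ℕ) : ℝ) * p.P) ≤ B := by
    intro a ha
    have h1 := (hqw a ha).1
    have h0 : (0 : ℝ) < ((a.1 * a.2 : ℕ) : ℝ) := by linarith
    have h2 : 4 * p.M / p.q1 ≤ 4 * p.M := div_le_self (by linarith) hq1r
    have h3 : (p.Q * p.P) ^ 2 ≤ ((a.1 * a.2 * q' : ℕ) : ℝ) * p.P := by
      rw [Nat.cast_mul]
      calc (p.Q * p.P) ^ 2 = (p.Q * p.P) * p.Q * p.P := by ring
        _ ≤ ((a.1 * a.2 : ℕ) : ℝ) * q' * p.P := by gcongr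
    rw [hBdef]
    calc 8 * (4 * p.M / p.q1) / (((a.1 * a.2 * q' : ℕ) : ℝ) * p.P) ≤ 8 * (4 * p.M) / (p.Q * p.P) ^ 2 := by
          gcongr
      _ = 32 * p.M / (p.Q * p.P) ^ 2 := by ring
  have hS := hSCF (p.W.filter (fun w => Nat.Coprime w (x * x'))) p.P h.hP
    (fun w hw => h.hW w (mem_filter.1 hw).1) q' x ⌊4 * p.Q * p.P⌋₊ hqsq hx0 hxq
    (fun w hw => h.hWQ w (mem_filter.1 hw).1 q' hq')
    (fun w hw => Nat.Coprime.coprime_mul_right_right (mem_filter.1 hw).2)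
    (-(η * p.k * j)) (x * x' : ℤ) ρ
    (neg_ne_zero.2 (mul_ne_zero (mul_ne_zero hη0 h.hk0) hj0))
    (by
      rw [← Nat.cast_mul, Int.gcd_natCast_natCast]
      exact Nat.Coprime.mul_left hxq hxq')
    (fun w hw => by
      rw [← Nat.cast_mul, Int.gcd_natCast_natCast]
      exact (mem_filter.1 hw).2.symm)
    (fun w => (starRingEnd ℂ) (p.lam w) * ph x (-(η * p.k)) (p.q1 * ρ * (q' * w : ℕ)))
    (fun w => by
      rw [norm_mul, norm_ph, mul_one, RCLike.norm_conj]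
      exact h.hlam w)
    A (fun a => a.1 * a.2) p.R0 B
    (fun a ha => by
      obtain ⟨h1, h2, h3, h4, h5⟩ := hA a ha
      obtain ⟨h6, h7⟩ := hqw a ha
      refine ⟨?_, Nat.le_floor h7, h5, h4⟩
      have h8 : (0 : ℝ) < ((a.1 * a.2 : ℕ) : ℝ) := by linarith
      exact Nat.cast_pos.1 h8)
    (fun n => by
      rcases (A.filter (fun a => a.1 * a.2 = n)).eq_empty_or_nonempty with h1 | ⟨a, ha⟩
      · rw [h1, card_empty, Nat.cast_zero]
        have h2 := h.hR0 1 le_rfl (by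
          rw [Nat.cast_one]
          nlinarith)
        rw [Nat.divisors_one, card_singleton, Nat.cast_one] at h2
        linarith
      · rw [mem_filter] at ha
        obtain ⟨h6, h7⟩ := hqw a ha.1
        rw [ha.2] at h6 h7
        have hn : 0 < n := Nat.cast_pos.1 (show (0 : ℝ) < (n : ℝ) by linarith)
        refine le_trans ?_ (h.hR0 n hn (by nlinarith))
        rw [Nat.cast_le]
        refine card_le_card_of_injOn (fun a => a.1) (fun b hb => ?_) (fun b hb b' hb' hbb => ?_)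
        · have hb1 := mem_filter.1 hb
          exact mem_coe.2 (Nat.mem_divisors.2 ⟨⟨b.2, hb1.2.symm⟩, hn.ne'⟩)
        · have hb1 := mem_filter.1 hb
          have hb2 := mem_filter.1 hb'
          have e1 : b.1 = b'.1 := hbb
          have e2 : b.1 * b.2 = b.1 * b'.2 := by
            rw [hb1.2, e1, hb2.2]
          exact Prod.ext e1 (Nat.eq_of_mul_eq_mul_left (q_pos h (hA b hb1.1).1) e2))
    (fun a s => ((FF (4 * p.M / p.q1) η (((a.1 * a.2 * q' : ℕ) : ℝ) * s) : ℝ) : ℂ) *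
      ee (η * p.k / (x * p.q1 * (a.1 * a.2 : ℕ) * q') / s))
    (fun a ha s h1 h2 => ((hFB a ha).1 s h1 h2).trans (hBle a ha))
    (fun a ha s t h1 h2 h3 h4 => ((hFB a ha).2 s t h1 h2 h3 h4).trans (by
      have := hBle a ha
      gcongr))
  have hterm : ∀ a ∈ A, ‖inn p x x' q' j η a‖ =
      ‖∑ w ∈ (p.W.filter (fun w => Nat.Coprime w (x * x'))).filter
        (fun w => Nat.Coprime w (a.1 * a.2)),
        (starRingEnd ℂ) (p.lam w) * ph x (-(η * p.k)) (p.q1 * ρ * (q' * w : ℕ)) *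
          (((FF (4 * p.M / p.q1) η (((a.1 * a.2 * q' : ℕ) : ℝ) * w) : ℝ) : ℂ) *
            ee (η * p.k / (x * p.q1 * (a.1 * a.2 : ℕ) * q') / w)) *
          ph (q' * w) (-(η * p.k * j)) (x * x' * (a.1 * a.2 : ℕ))‖ := by
    intro a ha
    congr 1
    unfold inn
    refine sum_congr rfl fun w hw => ?_
    have e1 : ph x (-(η * p.k)) (p.q1 * ρ * (q' * w : ℕ)) =
        ph x (-(η * p.k)) (p.q1 * (a.1 * a.2 : ℕ) * (q' * w : ℕ)) := by
      refine ph_congr ?_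
      have h1 : ((a.1 * a.2 : ℕ) : ℤ) ≡ (ρ : ℕ) [ZMOD x] := by
        rw [Int.natCast_modEq_iff]
        exact (hA a ha).2.2.2.2
      exact ((Int.ModEq.refl (p.q1 : ℤ)).mul h1.symm).mul (Int.ModEq.refl _)
    have e2 : (((a.1 * a.2 * q' : ℕ) : ℝ) * w) = ((a.1 * a.2 : ℕ) : ℝ) * ((q' * w : ℕ) : ℝ) := by
      push_cast
      ring
    have e3 : (η * p.k / (x * p.q1 * (a.1 * a.2 : ℕ) * q') / w : ℝ) =
        η * p.k / (x * p.q1 * (a.1 * a.2 : ℕ) * (q' * w : ℕ)) := by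
      rw [div_div]
      push_cast
      ring
    rw [e1, e2, e3]
    ring
  rw [sum_congr rfl hterm]
  have hcard := card_A h hXP hx ρ A fun a ha =>
    ⟨(hA a ha).1, (hA a ha).2.1, (hA a ha).2.2.1, (hA a ha).2.2.2.2⟩
  have hC : |((-(η * p.k * j) : ℤ) : ℝ)| ≤ p.H * |(p.k : ℝ)| * p.X := by
    push_cast
    rw [abs_neg, abs_mul, abs_mul]
    gcongr
  have hscb := scb_le h hx hq' (abs_nonneg _) hC
  have hR0 : (0 : ℝ) ≤ p.R0 := by
    have h2 := h.hR0 1 le_rfl (by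
      rw [Nat.cast_one]
      nlinarith)
    rw [Nat.divisors_one, card_singleton, Nat.cast_one] at h2
    linarith
  have hscE : 0 ≤ p.scE := scE_nonneg h
  have hfin : (A.card : ℝ) * (6 * B ^ 2 * p.R0 * scb (2 * p.P) (⌊4 * p.Q * p.P⌋₊ : ℕ) x q' p.P
      |((-(η * p.k * j) : ℤ) : ℝ)| q'.primeFactors.card) ≤
      B ^ 2 * (30 * p.Q * p.P * p.R0 * p.scE / p.X) := by
    have hX0 : 0 < p.X := by linarith
    calc (A.card : ℝ) * (6 * B ^ 2 * p.R0 * scb (2 * p.P) (⌊4 * p.Q * p.P⌋₊ : ℕ) x q' p.P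
          |((-(η * p.k * j) : ℤ) : ℝ)| q'.primeFactors.card)
        ≤ (A.card : ℝ) * (6 * B ^ 2 * p.R0 * p.scE) := by gcongr
      _ ≤ 4 * p.Q * p.P / p.X * (6 * B ^ 2 * p.R0 * p.scE) := by gcongr
      _ = B ^ 2 * (24 * p.Q * p.P * p.R0 * p.scE / p.X) := by ring
      _ ≤ B ^ 2 * (30 * p.Q * p.P * p.R0 * p.scE / p.X) := by
        gcongr
        norm_num
  refine le_trans (Real.le_sqrt_of_sq_le (hS.trans hfin)) ?_
  rw [Real.sqrt_mul (by positivity), Real.sqrt_sq hB0]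

/-- the bound for fixed `x`, `x'`, `q'` -/
theorem fiber (hS : Stmt_brS) (h0 : Stmt_br0) (hFF : Stmt_FFx) (hSCF : Stmt_SCF) {p : TD} (h : p.Ok)
    (hXP : p.X ≤ p.P) (hH : (p.H : ℝ) * |(p.k : ℝ)| ≤ p.Q * p.P) (Z : ℕ → ℕ → Prop) {x x' q' : ℕ}
    (hx : x ∈ p.XX) (hx' : x' ∈ p.XX) (hq' : q' ∈ p.QQ) (T : Finset ((ℕ × ℕ × ℕ) × (ℕ × ℕ × ℕ)))
    (hT : ∀ ii, ii ∈ T ↔ (ii.1 ∈ p.I ∧ ii.2 ∈ p.I) ∧
      (Nat.Coprime (ii.1.1 * ii.1.2.1) (ii.2.1 * ii.2.2.1) ∧ ii.1.2.2 ≠ ii.2.2.2 ∧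
        Nat.Coprime ii.1.2.2 (ii.2.1 * ii.2.2.1) ∧ Z ii.2.2.2 (ii.1.1 * ii.1.2.1)) ∧
      ii.1.2.2 = x ∧ ii.2.2.2 = x' ∧ ii.2.1 = q') :
    ‖∑ ii ∈ T, p.cc ii.1 * (starRingEnd ℂ) (p.cc ii.2) * ((p.br ii.1 ii.2 : ℝ) : ℂ)‖ ≤
      2 * p.H * (2 * p.X) *
        (32 * p.M / (p.Q * p.P) ^ 2 * Real.sqrt (30 * p.Q * p.P * p.R0 * p.scE / p.X)) := by
  classical
  have hX := h.hX
  have hP := h.hP
  have hQ := h.hQ
  have hM := h.hM
  set CB : ℝ := 32 * p.M / (p.Q * p.P) ^ 2 * Real.sqrt (30 * p.Q * p.P * p.R0 * p.scE / p.X) with hCB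
  have hCB0 : 0 ≤ CB := by positivity
  rcases T.eq_empty_or_nonempty with hTe | ⟨i0, hi0⟩
  · rw [hTe, sum_empty, norm_zero]
    positivity
  obtain ⟨⟨-, hI2⟩, ⟨hc1, hne, hc2, -⟩, e1, e2, e3⟩ := (hT i0).1 hi0
  rw [e1, e2] at hne
  rw [e1, e3] at hc2
  have hxq : Nat.Coprime x q' := Nat.Coprime.coprime_mul_right_right hc2
  have hxq' : Nat.Coprime x' q' := by
    unfold TD.I at hI2
    have h1 := (mem_filter.1 hI2).2
    rw [e2, e3] at h1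
    exact Nat.Coprime.coprime_mul_right_right h1
  by_cases hdiv : ((p.q1 : ℕ) : ℤ) ∣ (x' : ℤ) - x
  swap
  · have hz : ∀ ii ∈ T, p.cc ii.1 * (starRingEnd ℂ) (p.cc ii.2) * ((p.br ii.1 ii.2 : ℝ) : ℂ) = 0 := by
      intro ii hii
      obtain ⟨-, -, f1, f2, -⟩ := (hT ii).1 hii
      have h1 : p.br ii.1 ii.2 = 0 := by
        unfold TD.br
        rw [f1, f2]
        exact h0 _ _ _ _ _ _ _ h.hkq hdiv
      rw [h1, Complex.ofReal_zero, mul_zero]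
    rw [sum_eq_zero hz, norm_zero]
    positivity
  obtain ⟨j, hj⟩ := hdiv
  -- the pairs `(q'', w)`
  set A0 : Finset (ℕ × ℕ) := (p.QQ ×ˢ p.W).filter (fun a => Nat.Coprime (a.1 * a.2) x ∧
    Nat.Coprime (a.1 * a.2) q' ∧ Z x' (a.1 * a.2)) with hA0
  have hmem : ∀ a : ℕ × ℕ, a ∈ A0 ↔ (a.1 ∈ p.QQ ∧ a.2 ∈ p.W) ∧ Nat.Coprime (a.1 * a.2) x ∧
      Nat.Coprime (a.1 * a.2) q' ∧ Z x' (a.1 * a.2) := fun a => by
    rw [hA0, mem_filter, mem_product]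
  -- change of variables
  have hsum : ∑ ii ∈ T, p.cc ii.1 * (starRingEnd ℂ) (p.cc ii.2) * ((p.br ii.1 ii.2 : ℝ) : ℂ) =
      ∑ a ∈ A0, (p.b a.1 * p.lam a.2 * p.be x * (starRingEnd ℂ) (p.b q' * p.be x')) *
        ∑ η ∈ (Icc (-(p.H : ℤ)) p.H).erase 0, inn p x x' q' j η a := by
    have hR : ∀ a ∈ A0, (p.b a.1 * p.lam a.2 * p.be x * (starRingEnd ℂ) (p.b q' * p.be x')) *
        ∑ η ∈ (Icc (-(p.H : ℤ)) p.H).erase 0, inn p x x' q' j η a =
        ∑ w ∈ (p.W.filter (fun w => Nat.Coprime w (x * x'))).filter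
          (fun w => Nat.Coprime w (a.1 * a.2)),
          p.cc (a.1, a.2, x) * (starRingEnd ℂ) (p.cc (q', w, x')) *
            ((p.br (a.1, a.2, x) (q', w, x') : ℝ) : ℂ) := by
      intro a ha
      obtain ⟨⟨g1, g2⟩, g3, g4, -⟩ := (hmem a).1 ha
      unfold inn
      rw [sum_comm, mul_sum]
      refine sum_congr rfl fun w hw => ?_
      rw [mem_filter, mem_filter] at hw
      obtain ⟨⟨hwW, hw1⟩, hw2⟩ := hw
      have hx0 := x_pos h hx
      have hx0' := x_pos h hx'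
      have hqa := q_pos h g1
      have hqq' := q_pos h hq'
      obtain ⟨-, v1, v2⟩ := h.hW a.2 g2
      obtain ⟨-, u1, u2⟩ := h.hW w hwW
      obtain ⟨-, s1, s2, -⟩ := h.hQQ a.1 g1
      obtain ⟨-, t1, t2, -⟩ := h.hQQ q' hq'
      have hwa : 0 < a.2 := Nat.cast_pos.1 (show (0 : ℝ) < (a.2 : ℝ) by linarith)
      have hww : 0 < w := Nat.cast_pos.1 (show (0 : ℝ) < (w : ℝ) by linarith)
      have hq1 := h.hq1
      have hq1r : (1 : ℝ) ≤ p.q1 := by exact_mod_cast hq1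
      have hRM := h.hRM
      have b1 : ((a.1 * a.2 : ℕ) : ℝ) ≤ 4 * (p.Q * p.P) := by
        push_cast
        have := mul_le_mul s2 v2 (by linarith) (by linarith)
        linarith
      have b2 : ((q' * w : ℕ) : ℝ) ≤ 4 * (p.Q * p.P) := by
        push_cast
        have := mul_le_mul t2 u2 (by linarith) (by linarith)
        linarith
      have hY : ∀ n : ℕ, (n : ℝ) ≤ 4 * (p.Q * p.P) → ((p.q1 * n : ℕ) : ℝ) ≤ 4 * p.M := by
        intro n hn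
        push_cast
        calc (p.q1 : ℝ) * n ≤ p.q1 * (4 * (p.Q * p.P)) := by gcongr
          _ = 4 * (p.q1 * p.Q * p.P) := by ring
          _ ≤ 4 * p.M := by linarith
      have hbr := hS (4 * p.M) (by positivity) p.k p.q1 (a.1 * a.2) x (q' * w) x' j p.H hq1
        (Nat.mul_pos hqa hwa) (Nat.mul_pos hqq' hww) hx0 hx0' (h.hXX x hx).2.2 (h.hXX x' hx').2.2
        (Nat.Coprime.mul_right g4 hw2.symm) g3.symm
        (Nat.Coprime.mul_right hxq' (Nat.Coprime.coprime_mul_left_right hw1).symm)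
        (Nat.Coprime.mul_right hxq (Nat.Coprime.coprime_mul_right_right hw1).symm) hj
        (hY _ b1) (hY _ b2) (by
          refine le_trans ?_ (Nat.le_ceil _)
          rw [div_le_div_iff₀ (by positivity) (by positivity)]
          have c1 : ((a.1 * a.2 : ℕ) : ℝ) * ((q' * w : ℕ) : ℝ) ≤
              (4 * (p.Q * p.P)) * (4 * (p.Q * p.P)) :=
            mul_le_mul b1 b2 (Nat.cast_nonneg _) (by positivity)
          calc (p.q1 : ℝ) * ((a.1 * a.2 : ℕ) : ℝ) * ((q' * w : ℕ) : ℝ) * p.M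
              = p.q1 * p.M * (((a.1 * a.2 : ℕ) : ℝ) * ((q' * w : ℕ) : ℝ)) := by ring
            _ ≤ p.q1 * p.M * ((4 * (p.Q * p.P)) * (4 * (p.Q * p.P))) := by gcongr
            _ = 4 * p.q1 * (p.Q * p.P) ^ 2 * (4 * p.M) := by ring)
      have hbr' : ((p.br (a.1, a.2, x) (q', w, x') : ℝ) : ℂ) =
          ∑ η ∈ (Icc (-(p.H : ℤ)) p.H).erase 0,
            (((FF (4 * p.M / p.q1) η ((a.1 * a.2 : ℕ) * (q' * w : ℕ)) : ℝ) : ℂ) *
              ee (η * p.k / (x * p.q1 * (a.1 * a.2 : ℕ) * (q' * w : ℕ))) *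
              ph x (-(η * p.k)) (p.q1 * (a.1 * a.2 : ℕ) * (q' * w : ℕ)) *
              ph (q' * w) (-(η * p.k * j)) (x * x' * (a.1 * a.2 : ℕ))) := hbr
      rw [hbr', ← mul_sum]
      unfold TD.cc
      simp only [map_mul]
      ring
    rw [sum_congr rfl hR, sum_sigma']
    refine sum_bij' (fun ii _ => ⟨(ii.1.1, ii.1.2.1), ii.2.2.1⟩)
      (fun y _ => ((y.1.1, y.1.2, x), (q', y.2, x'))) (fun ii hii => ?_) (fun y hy => ?_)
      (fun ii hii => ?_) (fun y hy => rfl) (fun ii hii => ?_)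
    · obtain ⟨⟨g1, g2⟩, ⟨g3, g4, g5, g6⟩, g7, g8, g9⟩ := (hT ii).1 hii
      unfold TD.I at g1 g2
      rw [mem_filter, mem_product, mem_product] at g1 g2
      rw [g7, g9] at g5
      rw [g8] at g6
      rw [g9] at g3
      have k1 := g1.2
      have k2 := g2.2
      rw [g7] at k1
      rw [g8, g9] at k2
      rw [mem_sigma, hmem, mem_filter, mem_filter]
      exact ⟨⟨⟨g1.1.1, g1.1.2.1⟩, k1.symm, Nat.Coprime.coprime_mul_right_right g3, g6⟩,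
        ⟨g2.1.2.1, (Nat.Coprime.mul_left (Nat.Coprime.coprime_mul_left_right g5)
          (Nat.Coprime.coprime_mul_left_right k2)).symm⟩,
        (Nat.Coprime.coprime_mul_left_right g3).symm⟩
    · rw [mem_sigma, hmem, mem_filter, mem_filter] at hy
      obtain ⟨⟨⟨g1, g2⟩, g3, g4, g5⟩, ⟨g6, g7⟩, g8⟩ := hy
      refine (hT _).2 ⟨⟨?_, ?_⟩, ⟨Nat.Coprime.mul_right g4 g8.symm, hne,
        Nat.Coprime.mul_right hxq (Nat.Coprime.coprime_mul_right_right g7).symm, g5⟩, rfl, rfl, rfl⟩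
      · unfold TD.I
        rw [mem_filter, mem_product, mem_product]
        exact ⟨⟨g1, g2, hx⟩, g3.symm⟩
      · unfold TD.I
        rw [mem_filter, mem_product, mem_product]
        exact ⟨⟨hq', g6, hx'⟩,
          Nat.Coprime.mul_right hxq' (Nat.Coprime.coprime_mul_left_right g7).symm⟩
    · obtain ⟨-, -, g7, g8, g9⟩ := (hT ii).1 hii
      rw [← g7, ← g8, ← g9]
    · obtain ⟨-, -, g7, g8, g9⟩ := (hT ii).1 hii
      rw [← g7, ← g8, ← g9]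
  rw [hsum]
  have hstep : ∀ a ∈ A0, ‖(p.b a.1 * p.lam a.2 * p.be x * (starRingEnd ℂ) (p.b q' * p.be x')) *
      ∑ η ∈ (Icc (-(p.H : ℤ)) p.H).erase 0, inn p x x' q' j η a‖ ≤
      ∑ η ∈ (Icc (-(p.H : ℤ)) p.H).erase 0, ‖inn p x x' q' j η a‖ := by
    intro a _
    rw [norm_mul]
    have h1 : ‖p.b a.1 * p.lam a.2 * p.be x * (starRingEnd ℂ) (p.b q' * p.be x')‖ ≤ 1 := by
      rw [norm_mul, norm_mul, norm_mul, RCLike.norm_conj, norm_mul]
      have g1 := h.hb a.1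
      have g2 := h.hlam a.2
      have g3 := h.hbe x
      have g4 := h.hb q'
      have g5 := h.hbe x'
      calc ‖p.b a.1‖ * ‖p.lam a.2‖ * ‖p.be x‖ * (‖p.b q'‖ * ‖p.be x'‖) ≤ 1 * 1 * 1 * (1 * 1) := by
            gcongr
        _ = 1 := by norm_num
    calc ‖p.b a.1 * p.lam a.2 * p.be x * (starRingEnd ℂ) (p.b q' * p.be x')‖ *
          ‖∑ η ∈ (Icc (-(p.H : ℤ)) p.H).erase 0, inn p x x' q' j η a‖
        ≤ 1 * ‖∑ η ∈ (Icc (-(p.H : ℤ)) p.H).erase 0, inn p x x' q' j η a‖ := by gcongr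
      _ ≤ _ := by
        rw [one_mul]
        exact norm_sum_le _ _
  refine (norm_sum_le _ _).trans ((sum_le_sum hstep).trans ?_)
  rw [sum_comm]
  have hη : ∀ η ∈ (Icc (-(p.H : ℤ)) p.H).erase 0, ∑ a ∈ A0, ‖inn p x x' q' j η a‖ ≤
      2 * p.X * CB := by
    intro η hη
    have hx0 := x_pos h hx
    have hmaps : ∀ a ∈ A0, a.1 * a.2 % x ∈ range ⌊2 * p.X⌋₊ := by
      intro a _
      rw [mem_range]
      exact (Nat.mod_lt _ hx0).trans_le (Nat.le_floor (h.hXX x hx).2.1)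
    rw [← sum_fiberwise_of_maps_to hmaps]
    calc ∑ ρ ∈ range ⌊2 * p.X⌋₊, ∑ a ∈ A0.filter (fun a => a.1 * a.2 % x = ρ), ‖inn p x x' q' j η a‖
        ≤ ∑ ρ ∈ range ⌊2 * p.X⌋₊, CB := by
          refine sum_le_sum fun ρ _ => cell hFF hSCF h hXP hH hx hx' hq' hxq hxq' hne hj hη ρ _
            fun a ha => ?_
          rw [mem_filter, hmem] at ha
          obtain ⟨⟨⟨g1, g2⟩, g3, g4, -⟩, g5⟩ := ha
          exact ⟨g1, g2, g3, g4, by rw [Nat.ModEq, ← g5, Nat.mod_mod]⟩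
      _ = (⌊2 * p.X⌋₊ : ℕ) * CB := by rw [sum_const, card_range, nsmul_eq_mul]
      _ ≤ 2 * p.X * CB := by
        have := Nat.floor_le (show (0 : ℝ) ≤ 2 * p.X by positivity)
        gcongr
  refine (sum_le_sum hη).trans ?_
  rw [sum_const, nsmul_eq_mul]
  have hcard : ((Icc (-(p.H : ℤ)) p.H).erase 0).card = 2 * p.H := by
    rw [card_erase_of_mem (mem_Icc.2 ⟨by omega, by omega⟩), Int.card_Icc]
    omega
  rw [hcard]
  push_cast
  rw [mul_assoc (2 * (p.H : ℝ)) (2 * p.X) CB]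

theorem t5 (hS : Stmt_brS) (h0 : Stmt_br0) (hFF : Stmt_FFx) (hSCF : Stmt_SCF) (p : TD) (h : p.Ok)
    (hXP : p.X ≤ p.P) (hH : (p.H : ℝ) * |(p.k : ℝ)| ≤ p.Q * p.P) (Z : ℕ → ℕ → Prop) :
    ‖p.Se Z‖ ≤ 32 * p.H * p.X ^ 3 * p.Q * (32 * p.M / (p.Q * p.P) ^ 2) *
      Real.sqrt (30 * p.Q * p.P * p.R0 * p.scE / p.X) := by
  classical
  have hX := h.hX
  have hP := h.hP
  have hQ := h.hQ
  have hM := h.hM
  unfold TD.Se
  set CB : ℝ := 32 * p.M / (p.Q * p.P) ^ 2 * Real.sqrt (30 * p.Q * p.P * p.R0 * p.scE / p.X) with hCB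
  have hCB0 : 0 ≤ CB := by positivity
  set S := (p.I ×ˢ p.I).filter
    (fun ii => Nat.Coprime (ii.1.1 * ii.1.2.1) (ii.2.1 * ii.2.2.1) ∧ ii.1.2.2 ≠ ii.2.2.2 ∧
    Nat.Coprime ii.1.2.2 (ii.2.1 * ii.2.2.1) ∧ Z ii.2.2.2 (ii.1.1 * ii.1.2.1)) with hSdef
  have hI : ∀ i ∈ p.I, i.1 ∈ p.QQ ∧ i.2.1 ∈ p.W ∧ i.2.2 ∈ p.XX := by
    intro i hi
    unfold TD.I at hi
    rw [mem_filter, mem_product, mem_product] at hi
    exact hi.1
  have hmaps : ∀ ii ∈ S, (ii.1.2.2, ii.2.2.2, ii.2.1) ∈ p.XX ×ˢ p.XX ×ˢ p.QQ := by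
    intro ii hii
    rw [hSdef, mem_filter, mem_product] at hii
    rw [mem_product, mem_product]
    exact ⟨(hI _ hii.1.1).2.2, (hI _ hii.1.2).2.2, (hI _ hii.1.2).1⟩
  rw [← sum_fiberwise_of_maps_to hmaps]
  refine (norm_sum_le _ _).trans ?_
  refine (sum_le_sum (g := fun _ => 2 * (p.H : ℝ) * (2 * p.X) * CB) fun o ho => ?_).trans ?_
  · rw [mem_product, mem_product] at ho
    refine fiber hS h0 hFF hSCF h hXP hH Z ho.1 ho.2.1 ho.2.2 _ fun ii => ?_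
    rw [mem_filter, hSdef, mem_filter, mem_product, and_assoc]
    refine and_congr Iff.rfl (and_congr Iff.rfl ?_)
    rw [Prod.ext_iff, Prod.ext_iff]
  · rw [sum_const, nsmul_eq_mul, card_product, card_product]
    have h1 : (p.XX.card : ℝ) ≤ 2 * p.X := card_real (by linarith) _ fun x hx =>
      ⟨x_pos h hx, (h.hXX x hx).2.1⟩
    have h2 : (p.QQ.card : ℝ) ≤ 2 * p.Q := card_real (by linarith) _ fun q hq =>
      ⟨q_pos h hq, (h.hQQ q hq).2.2.1⟩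
    push_cast
    calc (p.XX.card : ℝ) * (p.XX.card * p.QQ.card) * (2 * p.H * (2 * p.X) * CB)
        ≤ (2 * p.X) * ((2 * p.X) * (2 * p.Q)) * (2 * p.H * (2 * p.X) * CB) := by gcongr
      _ = 32 * p.H * p.X ^ 3 * p.Q * CB := by ring
      _ = _ := by rw [hCB]; ring

end Pool.Agent.Helper97.AP
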