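import Pool.Agent.Helper57.KP.F2
import Pool.Agent.Helper56.AP.Stmts

/-!
# Block TILE + Z + F3 of (A'): from the bound `PL` on one piece to the form factor

Copies of `Helper57/KP/L2`, `Z2`, `F2` with `1/2 + γ` in the place of `3/2 - c / log T`.
-/

open MeasureTheory Set Filter Topology
open Pool.Agent.Helper57.Zeta Pool.Agent.Helper57.PC Pool.Agent.Helper57.LH Pool.Agent.Helper78.SG
open Pool.Agent.Helper4.SH (om)
open Pool.Agent.Helper69.FF Pool.Agent.Helper57.KP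
open scoped ContDiff

set_option autoImplicit false

namespace Pool.Agent.AP.Tile

theorem PL.mono {c₀ γ c₁ γ₁ : ℝ} (h : PL c₀ γ) (hc : c₁ ≤ c₀) (hγ : γ₁ ≤ γ) : PL c₁ γ₁ := by
  intro g hg hI W R hW hR θ hθ
  filter_upwards [h g hg hI W R hW hR θ hθ, eventually_ge_atTop (1 : ℝ)] with T hT hT1 c h1 h2
  have hL : 0 ≤ Real.log T := Real.log_nonneg hT1
  refine le_trans ?_ (hT c h1 (h2.trans (by nlinarith)))
  have hV : 0 ≤ ∫ y, W y ^ 2 := integral_nonneg fun y => sq_nonneg _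
  have h3 : (1 / 2 + γ₁) * (∫ y, W y ^ 2) ≤ (1 / 2 + γ) * (∫ y, W y ^ 2) :=
    mul_le_mul_of_nonneg_right (by linarith) hV
  exact mul_le_mul_of_nonneg_left (by linarith) hI.le

private theorem t2_bump {η w : ℝ} (hη : 0 < η) (hη1 : η ≤ 1 / 8) (hw : 0 < w) (hw1 : w < 1) :
    ∃ g : TF, (∀ x, 0 ≤ g.h x) ∧ (∀ x, g.h x ≤ 1) ∧ 2 * η * (1 - w) ≤ ∫ x, g.h x ∧ g.th = η := by
  let f : ContDiffBump (0 : ℝ) :=
    { rIn := η * (1 - w)
      rOut := η
      rIn_pos := mul_pos hη (by linarith)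
      rIn_lt_rOut := by nlinarith }
  let g : TF :=
    { h := fun x => f x
      th := η
      smooth := f.contDiff
      even := fun x => f.neg x
      th0 := hη
      th1 := by linarith
      supp := fun x hx => f.zero_of_le_dist (by
        rw [Real.dist_eq, sub_zero]
        exact hx) }
  refine ⟨g, fun x => f.nonneg, fun x => f.le_one, ?_, rfl⟩
  have h1 := f.measure_closedBall_le_integral volume
  have h2 : volume.real (Metric.closedBall (0 : ℝ) f.rIn) = 2 * η * (1 - w) := by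
    rw [Measure.real, Real.volume_closedBall, ENNReal.toReal_ofReal]
    · show 2 * (η * (1 - w)) = 2 * η * (1 - w)
      ring
    · show 0 ≤ 2 * (η * (1 - w))
      have : 0 < 1 - w := by linarith
      positivity
  rw [h2] at h1
  exact h1

private theorem t2_AA {W : ℝ → ℝ} {R : ℝ} (hW : PF W R) {c T : ℝ} (hL : 0 < Real.log T) (hc : Real.exp (c + R) ≤ T ^ 2) (t : ℝ) :
    ((Real.sqrt (Real.log T) : ℝ) : ℂ) * AA (sw W c T) T t = ∑ n ∈ Finset.Icc 1 ⌊Real.exp (c + R)⌋₊,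
      ((ArithmeticFunction.vonMangoldt n / Real.sqrt n * W (Real.log n - c) : ℝ) : ℂ) * xp t n := by
  have h1 : ((Real.sqrt (Real.log T) : ℝ) : ℂ) * AA (sw W c T) T t = ∑ n ∈ Finset.Icc 1 ⌊T ^ 2⌋₊,
      ((ArithmeticFunction.vonMangoldt n / Real.sqrt n * W (Real.log n - c) : ℝ) : ℂ) * xp t n := by
    unfold AA
    rw [Finset.mul_sum]
    refine Finset.sum_congr rfl fun n _ => ?_
    rw [← mul_assoc, ← Complex.ofReal_mul]
    congr 2
    unfold sw
    have e1 : Real.log T * (Real.log n / Real.log T) - c = Real.log n - c := by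
      field_simp
    rw [e1]
    have e2 : Real.sqrt (Real.log T) * Real.sqrt (Real.log T) = Real.log T := Real.mul_self_sqrt hL.le
    calc Real.sqrt (Real.log T) * (ArithmeticFunction.vonMangoldt n / Real.sqrt n * (Real.sqrt (Real.log T) * W (Real.log n - c)) / Real.log T)
        = ArithmeticFunction.vonMangoldt n / Real.sqrt n * W (Real.log n - c) * ((Real.sqrt (Real.log T) * Real.sqrt (Real.log T)) / Real.log T) := by ring
      _ = ArithmeticFunction.vonMangoldt n / Real.sqrt n * W (Real.log n - c) := by rw [e2, div_self hL.ne', mul_one]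
  rw [h1]
  symm
  refine Finset.sum_subset (Finset.Icc_subset_Icc_right (Nat.floor_le_floor hc)) ?_
  intro n hn hn'
  have h2 : ⌊Real.exp (c + R)⌋₊ < n := by
    rw [Finset.mem_Icc] at hn hn'
    by_contra h
    exact hn' ⟨hn.1, by omega⟩
  have h3 : Real.exp (c + R) < n := (Nat.floor_lt (Real.exp_pos _).le).mp h2
  have h4 : c + R < Real.log n := by
    rw [Real.lt_log_iff_exp_lt (by exact lt_trans (Real.exp_pos _) h3)]
    exact h3
  have h5 : W (Real.log n - c) = 0 := by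
    by_contra h
    have := (abs_le.mp (hW.supp _ h)).2
    linarith
  rw [h5]
  simp

private theorem t2_sq {W : ℝ → ℝ} {R : ℝ} (hW : PF W R) {c T T' : ℝ} (hL : 0 < Real.log T) (hL' : 0 < Real.log T')
    (hc : Real.exp (c + R) ≤ T ^ 2) (hc' : Real.exp (c + R) ≤ T' ^ 2) (t : ℝ) :
    Real.log T * ‖AA (sw W c T) T t‖ ^ 2 = Real.log T' * ‖AA (sw W c T') T' t‖ ^ 2 := by
  have h := (t2_AA hW hL hc t).trans (t2_AA hW hL' hc' t).symm
  have h1 := congrArg (fun z : ℂ => ‖z‖ ^ 2) h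
  simp only [norm_mul, Complex.norm_real, mul_pow, Real.norm_eq_abs, sq_abs] at h1
  rwa [Real.sq_sqrt hL.le, Real.sq_sqrt hL'.le] at h1

private theorem t2_cont (w : ℝ → ℝ) (T : ℝ) : Continuous (fun t : ℝ => AA w T t) := by
  unfold AA
  refine continuous_finsetSum _ fun n _ => continuous_const.mul ?_
  unfold xp
  fun_prop

private theorem t2_om (g : TF) {T t : ℝ} (hT : 0 < T) (h : om g.h T t ≠ 0) :
    T * (1 / 2 - g.th) < t ∧ t < T * (1 / 2 + g.th) := by
  unfold Pool.Agent.Helper4.SH.om at h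
  have h1 : |t / T - 1 / 2| < g.th := by
    by_contra h2
    rw [not_lt] at h2
    exact h (g.supp _ h2)
  rw [abs_lt] at h1
  have h3 : t = T * (t / T) := by field_simp
  constructor
  · rw [h3]
    exact mul_lt_mul_of_pos_left (by linarith [h1.1]) hT
  · rw [h3]
    exact mul_lt_mul_of_pos_left (by linarith [h1.2]) hT

/-- the tiling -/
private theorem t2_tile (g : TF) (hg0 : ∀ x, 0 ≤ g.h x) (hg1 : ∀ x, g.h x ≤ 1) {q δ T : ℝ} (hT : 0 < T) (hq0 : 0 < q) (hq1 : q ≤ 1)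
    (hq : q * (1 / 2 + g.th) = 1 / 2 - g.th) (hδ1 : δ < 1) (J : ℕ) (hJ : δ ≤ (1 - δ) * q ^ J) {F : ℝ → ℝ} (hF : Continuous F) (hF0 : ∀ t, 0 ≤ F t) :
    ∑ j ∈ Finset.range J, ∫ t, om g.h ((1 - δ) / (1 / 2 + g.th) * q ^ j * T) t * F t ≤ ∫ t in (δ * T)..((1 - δ) * T), F t := by
  have hth := g.th0
  have hth1 := g.th1
  have hA : (0:ℝ) < 1 / 2 + g.th := by linarith
  have hB : (0:ℝ) < 1 / 2 - g.th := by linarith
  have hD : (0:ℝ) < 1 - δ := by linarith
  have hTj : ∀ j : ℕ, 0 < (1 - δ) / (1 / 2 + g.th) * q ^ j * T := fun j => by positivity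
  have hle : δ * T ≤ (1 - δ) * T := by
    refine mul_le_mul_of_nonneg_right (hJ.trans ?_) hT.le
    exact mul_le_of_le_one_right hD.le (pow_le_one₀ hq0.le hq1)
  -- upper and lower end points
  have hup : ∀ j : ℕ, (1 - δ) / (1 / 2 + g.th) * q ^ j * T * (1 / 2 + g.th) = (1 - δ) * q ^ j * T := fun j => by
    field_simp
  have hlo : ∀ j : ℕ, (1 - δ) / (1 / 2 + g.th) * q ^ j * T * (1 / 2 - g.th) = (1 - δ) * q ^ (j + 1) * T := fun j => by
    rw [← hq, pow_succ]
    field_simp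
  have hcont : ∀ T' : ℝ, Continuous (fun t : ℝ => om g.h T' t) := fun T' => by
    unfold Pool.Agent.Helper4.SH.om
    have := g.smooth.continuous
    fun_prop
  have hint : ∀ j : ℕ, Integrable (fun t => om g.h ((1 - δ) / (1 / 2 + g.th) * q ^ j * T) t * F t) := by
    intro j
    refine Continuous.integrable_of_hasCompactSupport ((hcont _).mul hF) ?_
    refine HasCompactSupport.intro (isCompact_Icc (a := (1 - δ) / (1 / 2 + g.th) * q ^ j * T * (1 / 2 - g.th)) (b := (1 - δ) / (1 / 2 + g.th) * q ^ j * T * (1 / 2 + g.th))) ?_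
    intro t ht
    show om g.h _ t * F t = 0
    have : om g.h ((1 - δ) / (1 / 2 + g.th) * q ^ j * T) t = 0 := by
      by_contra h
      have := t2_om g (hTj j) h
      exact ht ⟨this.1.le, this.2.le⟩
    rw [this, zero_mul]
  rw [← integral_finsetSum _ fun j _ => hint j, intervalIntegral.integral_of_le hle, ← integral_Icc_eq_integral_Ioc,
    ← integral_indicator measurableSet_Icc]
  refine integral_mono (integrable_finsetSum _ fun j _ => hint j) ((hF.continuousOn.integrableOn_Icc).integrable_indicator measurableSet_Icc) ?_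
  intro t
  show ∑ j ∈ Finset.range J, om g.h ((1 - δ) / (1 / 2 + g.th) * q ^ j * T) t * F t ≤ (Icc (δ * T) ((1 - δ) * T)).indicator F t
  rw [← Finset.sum_mul]
  by_cases hall : ∀ j ∈ Finset.range J, om g.h ((1 - δ) / (1 / 2 + g.th) * q ^ j * T) t = 0
  · rw [Finset.sum_eq_zero hall, zero_mul]
    exact indicator_nonneg (fun t _ => hF0 t) t
  · push Not at hall
    obtain ⟨j0, hj0, hne⟩ := hall
    have hb := t2_om g (hTj j0) hne
    rw [hup, hlo] at hb
    have hj0' : j0 < J := Finset.mem_range.mp hj0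
    have hmem : t ∈ Icc (δ * T) ((1 - δ) * T) := by
      constructor
      · have h1 : q ^ J ≤ q ^ (j0 + 1) := pow_le_pow_of_le_one hq0.le hq1 hj0'
        have h2 : δ * T ≤ (1 - δ) * q ^ (j0 + 1) * T := by
          refine mul_le_mul_of_nonneg_right (hJ.trans ?_) hT.le
          exact mul_le_mul_of_nonneg_left h1 hD.le
        linarith [hb.1]
      · have h2 : (1 - δ) * q ^ j0 * T ≤ (1 - δ) * T := by
          refine mul_le_mul_of_nonneg_right ?_ hT.le
          exact mul_le_of_le_one_right hD.le (pow_le_one₀ hq0.le hq1)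
        linarith [hb.2]
    rw [indicator_of_mem hmem]
    have hsum : ∑ j ∈ Finset.range J, om g.h ((1 - δ) / (1 / 2 + g.th) * q ^ j * T) t = om g.h ((1 - δ) / (1 / 2 + g.th) * q ^ j0 * T) t := by
      refine Finset.sum_eq_single j0 ?_ (fun h => absurd hj0 h)
      intro j _ hj
      by_contra h
      have hb' := t2_om g (hTj j) h
      rw [hup, hlo] at hb'
      rcases lt_or_gt_of_ne hj with hlt | hlt
      · have h1 : q ^ j0 ≤ q ^ (j + 1) := pow_le_pow_of_le_one hq0.le hq1 hlt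
        have h2 : (1 - δ) * q ^ j0 * T ≤ (1 - δ) * q ^ (j + 1) * T := mul_le_mul_of_nonneg_right (mul_le_mul_of_nonneg_left h1 hD.le) hT.le
        linarith [hb.2, hb'.1]
      · have h1 : q ^ j ≤ q ^ (j0 + 1) := pow_le_pow_of_le_one hq0.le hq1 hlt
        have h2 : (1 - δ) * q ^ j * T ≤ (1 - δ) * q ^ (j0 + 1) * T := mul_le_mul_of_nonneg_right (mul_le_mul_of_nonneg_left h1 hD.le) hT.le
        linarith [hb.1, hb'.2]
    rw [hsum]
    have h1 : om g.h ((1 - δ) / (1 / 2 + g.th) * q ^ j0 * T) t ≤ 1 := hg1 _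
    exact mul_le_of_le_one_left (hF0 t) h1

private theorem t2_gsum {q δ η : ℝ} (hη : 0 < η) (hq : q * (1 / 2 + η) = 1 / 2 - η) (J : ℕ) :
    ∑ j ∈ Finset.range J, (1 - δ) / (1 / 2 + η) * q ^ j = (1 - δ) * (1 - q ^ J) / (2 * η) := by
  have hA : (1 / 2 + η) ≠ 0 := by positivity
  have hq1 : (1 - q) * (1 / 2 + η) = 2 * η := by linarith
  have hq2 : 1 - q ≠ 0 := by
    intro h
    rw [h, zero_mul] at hq1
    linarith
  have h1 : (∑ j ∈ Finset.range J, q ^ j) * (1 - q) = 1 - q ^ J := by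
    have := geom_sum_mul_neg q J
    exact this
  rw [← Finset.mul_sum, ← hq1]
  field_simp
  linear_combination (1 - δ) * h1

/-- one piece seen from `T` -/
private theorem t2_piece {c₀ γ : ℝ} (hPL : PL c₀ γ) (hc0 : 0 < c₀) (hc1 : c₀ ≤ 1 / 4) (g : TF)
    (hg0 : ∀ x, 0 ≤ g.h x) (hgI : 0 < ∫ x, g.h x)
    {W : ℝ → ℝ} {R θ : ℝ} (hW : PF W R) (hR : 0 < R) (hθ : 0 < θ)
    {κ : ℝ} (hκ : 0 < κ) {w : ℝ} (hw : 0 < w) {s : ℝ} (hs : 0 < s) :
    ∀ᶠ T : ℝ in atTop, ∀ c : ℝ, (1 + κ) * Real.log T ≤ c → c ≤ (1 + c₀ / 2) * Real.log T →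
    (1 - w) * (s * T * ((∫ x, g.h x) * max ((1 / 2 + γ) * (∫ y, W y ^ 2) - θ) 0)) ≤ ∫ t, om g.h (s * T) t * ‖AA (sw W c T) T t‖ ^ 2 := by
  have hp := hPL g hg0 hgI W R hW hR θ hθ
  have hp' := (tendsto_id.const_mul_atTop hs : Tendsto (fun T : ℝ => s * T) atTop atTop).eventually hp
  have hlog : ∀ a : ℝ, ∀ᶠ T : ℝ in atTop, a ≤ Real.log T := fun a => Real.tendsto_log_atTop.eventually_ge_atTop a
  set b : ℝ := |Real.log s| with hb
  have hb0 : 0 ≤ b := abs_nonneg _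
  filter_upwards [hp', eventually_gt_atTop 0, hlog 1, hlog (b / κ), hlog (2 * (1 + c₀) * b / c₀), hlog (2 * b + 1), hlog (4 * (R + 2 * b)), hlog (b / w)] with T h hT h1 h2 h3 h4 h5 h6 c hc1' hc2
  have hL : 0 < Real.log T := by linarith
  have hlogs : Real.log (s * T) = Real.log s + Real.log T := Real.log_mul hs.ne' hT.ne'
  have hbl := abs_le.mp (le_refl b : |Real.log s| ≤ b)
  rw [div_le_iff₀ hκ] at h2
  rw [div_le_iff₀ hc0] at h3
  rw [div_le_iff₀ hw] at h6
  have hLj : 0 < Real.log (s * T) := by rw [hlogs]; linarith [hbl.1]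
  have hsT : 0 < s * T := by positivity
  have hc0' : 0 < c := by nlinarith
  have hc32 : c ≤ 3 / 2 * Real.log T := by nlinarith
  have q1 : Real.log (s * T) ≤ c := by
    rw [hlogs]
    nlinarith [hbl.2]
  have q2 : c ≤ (1 + c₀) * Real.log (s * T) := by
    rw [hlogs]
    have : (1 + c₀) * (-b) ≤ (1 + c₀) * Real.log s := mul_le_mul_of_nonneg_left hbl.1 (by linarith)
    nlinarith
  have h7 := h c q1 q2
  -- exp (c + R) bounds
  have x1 : Real.exp (c + R) ≤ T ^ 2 := by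
    have : T ^ 2 = Real.exp (2 * Real.log T) := by
      rw [mul_comm, Real.exp_mul, Real.exp_log hT]
      norm_num
    rw [this, Real.exp_le_exp]
    linarith
  have x2 : Real.exp (c + R) ≤ (s * T) ^ 2 := by
    have : (s * T) ^ 2 = Real.exp (2 * Real.log (s * T)) := by
      rw [mul_comm 2, Real.exp_mul, Real.exp_log hsT]
      norm_num
    rw [this, Real.exp_le_exp, hlogs]
    linarith [hbl.1]
  have hsq := fun t => t2_sq hW hL hLj x1 x2 t
  set P := max ((1 / 2 + γ) * (∫ y, W y ^ 2) - θ) 0 with hP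
  have hP0 : 0 ≤ P := le_max_right _ _
  have hom0 : 0 ≤ ∫ t, om g.h (s * T) t * ‖AA (sw W c (s * T)) (s * T) t‖ ^ 2 := integral_nonneg fun t => mul_nonneg (hg0 _) (sq_nonneg _)
  have h9 : (∫ x, g.h x) * P ≤ (∫ t, om g.h (s * T) t * ‖AA (sw W c (s * T)) (s * T) t‖ ^ 2) / (s * T) := by
    rcases le_or_gt ((1 / 2 + γ) * (∫ y, W y ^ 2) - θ) 0 with hn | hn
    · rw [hP, max_eq_right hn, mul_zero]
      positivity
    · refine le_trans ?_ h7
      rw [hP, max_eq_left hn.le]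
  rw [le_div_iff₀ hsT] at h9
  have h10 : ∫ t, om g.h (s * T) t * ‖AA (sw W c T) T t‖ ^ 2 = Real.log (s * T) / Real.log T * ∫ t, om g.h (s * T) t * ‖AA (sw W c (s * T)) (s * T) t‖ ^ 2 := by
    rw [← integral_const_mul]
    refine integral_congr_ae (Eventually.of_forall fun t => ?_)
    simp only
    have := hsq t
    field_simp
    linear_combination (om g.h (s * T) t) * this
  rw [h10]
  have h11 : 1 - w ≤ Real.log (s * T) / Real.log T := by
    rw [le_div_iff₀ hL, hlogs]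
    nlinarith [hbl.1]
  have h12 : 0 ≤ s * T * ((∫ x, g.h x) * P) := by positivity
  calc (1 - w) * (s * T * ((∫ x, g.h x) * P)) ≤ Real.log (s * T) / Real.log T * (s * T * ((∫ x, g.h x) * P)) := mul_le_mul_of_nonneg_right h11 h12
    _ ≤ _ := mul_le_mul_of_nonneg_left (by linarith) (by positivity)

theorem primes2 {c₀ γ : ℝ} (hPL : PL c₀ γ) (hc0 : 0 < c₀) (hc1 : c₀ ≤ 1 / 4) (hγ : 0 ≤ γ) (hγ1 : γ ≤ 1 / 2)
    {W : ℝ → ℝ} {R : ℝ} (hW : PF W R) (hR : 0 < R) {κ ε : ℝ} (hκ : 0 < κ) (hε : 0 < ε) : ∃ δ : ℝ, 0 < δ ∧ δ < 1 / 2 ∧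
    ∀ᶠ T : ℝ in atTop, ∀ c : ℝ, (1 + κ) * Real.log T ≤ c → c ≤ (1 + c₀ / 2) * Real.log T →
    (1 / 2 + γ) * (∫ y, W y ^ 2) - ε ≤ (1 / T) * ∫ t in (δ * T)..((1 - δ) * T), ‖AA (sw W c T) T t‖ ^ 2 := by
  have hI2 : ∫ y, W y ^ 2 ≤ 2 * R := by
    have hz : ∀ y, y ∉ Icc (-R) R → W y = 0 := fun y hy => by
      by_contra h
      exact hy (abs_le.mp (hW.supp y h))
    have hone : ∫ y in Icc (-R) R, (1:ℝ) = 2 * R := by
      rw [setIntegral_const, measureReal_def, Real.volume_Icc, ENNReal.toReal_ofReal (by linarith), smul_eq_mul]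
      ring
    rw [← setIntegral_eq_integral_of_forall_compl_eq_zero (s := Icc (-R) R) (fun y hy => by rw [hz y hy]; norm_num), ← hone]
    refine setIntegral_mono_on ((hW.smooth.continuous.pow 2).integrableOn_Icc) (integrableOn_const (by simp)) measurableSet_Icc fun y _ => ?_
    have := hW.le_one y
    have := hW.nonneg y
    nlinarith
  have hI0 : 0 ≤ ∫ y, W y ^ 2 := integral_nonneg fun y => sq_nonneg _
  set w : ℝ := min (ε / (12 * R + 1)) (1 / 10) with hwdef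
  have hw : 0 < w := by positivity
  have hw1 : w ≤ 1 / 10 := min_le_right _ _
  have hwε : w * (12 * R + 1) ≤ ε := by
    calc w * (12 * R + 1) ≤ ε / (12 * R + 1) * (12 * R + 1) := by gcongr; exact min_le_left _ _
      _ = ε := by field_simp
  set η : ℝ := 1 / 8 with hηdef
  have hη : 0 < η := by positivity
  have hη1 : η ≤ 1 / 8 := le_rfl
  obtain ⟨g, hg0, hg1, hgI, hgth⟩ := t2_bump hη hη1 hw (by linarith)
  have hgI0 : 0 < ∫ x, g.h x := lt_of_lt_of_le (mul_pos (by positivity) (by linarith)) hgI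
  -- the ratio
  obtain ⟨q, hqdef⟩ : ∃ q : ℝ, q = (1 / 2 - η) / (1 / 2 + η) := ⟨_, rfl⟩
  have hqe : q * (1 / 2 + η) = 1 / 2 - η := by rw [hqdef]; field_simp
  have hq0 : 0 < q := by rw [hqdef]; exact div_pos (by linarith) (by linarith)
  have hq1 : q < 1 := by rw [hqdef, div_lt_one (by linarith)]; linarith
  obtain ⟨J, hJ⟩ := exists_pow_lt_of_lt_one hw hq1
  have hqJ : 0 < q ^ J := pow_pos hq0 J
  set δ : ℝ := q ^ J / 2 with hδdef
  have hδ : 0 < δ := by positivity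
  have hδw : δ ≤ w / 2 := by rw [hδdef]; linarith
  have hδJ : δ ≤ (1 - δ) * q ^ J := by
    have : 1 / 2 ≤ 1 - δ := by linarith
    calc δ = 1 / 2 * q ^ J := by rw [hδdef]; ring
      _ ≤ (1 - δ) * q ^ J := mul_le_mul_of_nonneg_right this hqJ.le
  refine ⟨δ, hδ, by linarith, ?_⟩
  have hall : ∀ᶠ T : ℝ in atTop, ∀ j ∈ Finset.range J, ∀ c : ℝ, (1 + κ) * Real.log T ≤ c → c ≤ (1 + c₀ / 2) * Real.log T →
      (1 - w) * ((1 - δ) / (1 / 2 + g.th) * q ^ j * T * ((∫ x, g.h x) * max ((1 / 2 + γ) * (∫ y, W y ^ 2) - w) 0)) ≤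
      ∫ t, om g.h ((1 - δ) / (1 / 2 + g.th) * q ^ j * T) t * ‖AA (sw W c T) T t‖ ^ 2 := by
    rw [Filter.eventually_all_finset]
    intro j _
    have hth0 := g.th0
    have hs : 0 < (1 - δ) / (1 / 2 + g.th) * q ^ j := by
      have : 0 < 1 - δ := by linarith
      positivity
    exact t2_piece hPL hc0 hc1 g hg0 hgI0 hW hR hw hκ hw hs
  filter_upwards [hall, eventually_gt_atTop 1] with T hT hT1 c hc1' hc2
  have hT0 : 0 < T := by linarith
  have hL : 0 < Real.log T := Real.log_pos hT1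
  have hFc : Continuous (fun t => ‖AA (sw W c T) T t‖ ^ 2) := (t2_cont (sw W c T) T).norm.pow 2
  have htile := t2_tile g hg0 hg1 hT0 hq0 hq1.le (by rw [hgth]; exact hqe) (by linarith) J hδJ hFc (fun t => sq_nonneg _)
  set P := max ((1 / 2 + γ) * (∫ y, W y ^ 2) - w) 0 with hP
  have hP0 : 0 ≤ P := le_max_right _ _
  have hsum : ∑ j ∈ Finset.range J, (1 - w) * ((1 - δ) / (1 / 2 + g.th) * q ^ j * T * ((∫ x, g.h x) * P)) ≤
      ∫ t in (δ * T)..((1 - δ) * T), ‖AA (sw W c T) T t‖ ^ 2 := (Finset.sum_le_sum fun j hj => hT j hj c hc1' hc2).trans htile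
  have hsum2 : ∑ j ∈ Finset.range J, (1 - w) * ((1 - δ) / (1 / 2 + g.th) * q ^ j * T * ((∫ x, g.h x) * P)) =
      (1 - w) * ((1 - δ) * (1 - q ^ J) / (2 * η) * (∫ x, g.h x)) * P * T := by
    have h1 := t2_gsum (δ := δ) hη hqe J
    rw [hgth, ← h1, Finset.sum_mul, Finset.mul_sum, Finset.sum_mul, Finset.sum_mul]
    refine Finset.sum_congr rfl fun j _ => ?_
    ring
  rw [hsum2] at hsum
  have hcoef : 1 - 4 * w ≤ (1 - w) * ((1 - δ) * (1 - q ^ J) / (2 * η) * (∫ x, g.h x)) := by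
    have a1 : (1 - w) * (1 - w) ≤ (1 - δ) * (1 - q ^ J) := mul_le_mul (by linarith) (by linarith) (by linarith) (by linarith)
    have a2 : (1 - w) * (1 - w) / (2 * η) ≤ (1 - δ) * (1 - q ^ J) / (2 * η) := div_le_div_of_nonneg_right a1 (by positivity)
    have a3 : (1 - w) * (1 - w) / (2 * η) * (2 * η * (1 - w)) ≤ (1 - δ) * (1 - q ^ J) / (2 * η) * (∫ x, g.h x) := by
      refine mul_le_mul a2 hgI (mul_nonneg (by positivity) (by linarith)) (le_trans ?_ a2)
      have : 0 ≤ 1 - w := by linarith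
      positivity
    have a4 : (1 - w) * (1 - w) / (2 * η) * (2 * η * (1 - w)) = (1 - w) * (1 - w) * (1 - w) := by field_simp
    rw [a4] at a3
    have a5 := mul_le_mul_of_nonneg_left a3 (by linarith : 0 ≤ 1 - w)
    have a6 : 1 - 4 * w ≤ (1 - w) * ((1 - w) * (1 - w) * (1 - w)) := by nlinarith [mul_pos hw hw, mul_pos (mul_pos hw hw) hw, sq_nonneg (w ^ 2)]
    linarith
  have hPR : P ≤ 2 * R := by
    refine max_le ?_ (by linarith)
    have a1 : (1 / 2 + γ) * (∫ y, W y ^ 2) ≤ 1 * (∫ y, W y ^ 2) := mul_le_mul_of_nonneg_right (by linarith) hI0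
    linarith
  have hPl : (1 / 2 + γ) * (∫ y, W y ^ 2) - w ≤ P := le_max_left _ _
  have hfin : (1 - 4 * w) * P ≤ (1 / T) * ∫ t in (δ * T)..((1 - δ) * T), ‖AA (sw W c T) T t‖ ^ 2 := by
    have a1 : (1 - 4 * w) * P * T ≤ ∫ t in (δ * T)..((1 - δ) * T), ‖AA (sw W c T) T t‖ ^ 2 :=
      (mul_le_mul_of_nonneg_right (mul_le_mul_of_nonneg_right hcoef hP0) hT0.le).trans hsum
    rw [one_div, inv_mul_eq_div, le_div_iff₀ hT0]
    exact a1
  have a7 : 4 * w * P ≤ 4 * w * (2 * R) := mul_le_mul_of_nonneg_left hPR (by positivity)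
  nlinarith

open Pool.Agent.Helper93.LP (PP GG) in
private theorem t2z_PP_AA {w : ℝ → ℝ} {a b : ℝ} (hw : WR w a b) (hb : b < 2) {T : ℝ} (hT : 1 < T) (t : ℝ) :
    PP T (fun x => (w x : ℂ)) t = AA w T t := by
  have hT0 : 0 < T := by linarith
  have hL : 0 < Real.log T := Real.log_pos hT
  have h1 := Pool.Agent.Helper93.LP.MVs.PP_eq hw (β := 2) hb hT t
  have hN : NX ((2 : ℝ) * Real.log T) = ⌊T ^ 2⌋₊ := by
    unfold NX
    congr 1
    have e : (2 : ℝ) * Real.log T = ((2 : ℕ) : ℝ) * Real.log T := by norm_num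
    rw [e, Real.exp_nat_mul, Real.exp_log hT0]
  rw [h1, hN]
  unfold AA
  have hsub : Finset.Icc 1 ⌊T ^ 2⌋₊ ⊆ Finset.range (⌊T ^ 2⌋₊ + 1) := by
    intro n hn
    rw [Finset.mem_Icc] at hn
    rw [Finset.mem_range]
    omega
  rw [Complex.ofReal_sum, Complex.ofReal_sum, Finset.sum_mul, ← Finset.sum_sub_distrib]
  symm
  rw [← Finset.sum_subset hsub (f := fun n => ((Pool.Agent.Helper93.LP.MVs.cc w (Real.log T) n * Real.cos (Real.log n * t) : ℝ) : ℂ) -
      ((Pool.Agent.Helper93.LP.MVs.cc w (Real.log T) n * Real.sin (Real.log n * t) : ℝ) : ℂ) * Complex.I)]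
  · refine Finset.sum_congr rfl fun n hn => ?_
    rw [Finset.mem_Icc] at hn
    have hn0 : (0 : ℝ) < n := by exact_mod_cast hn.1
    have hs : Real.sqrt n ≠ 0 := (Real.sqrt_pos.mpr hn0).ne'
    unfold Pool.Agent.Helper93.LP.MVs.cc xp
    have h2 : -(((t * Real.log n : ℝ) : ℂ) * Complex.I) = ((-(Real.log n * t) : ℝ) : ℂ) * Complex.I := by
      push_cast; ring
    rw [h2, Complex.exp_mul_I, ← Complex.ofReal_cos, ← Complex.ofReal_sin, Real.cos_neg, Real.sin_neg]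
    have h3 : ArithmeticFunction.vonMangoldt n * w (Real.log n / Real.log T) / (Real.log T * Real.sqrt n) =
        ArithmeticFunction.vonMangoldt n / Real.sqrt n * w (Real.log n / Real.log T) / Real.log T := by
      field_simp
    rw [h3]
    push_cast
    ring
  · intro n hn hn'
    rw [Finset.mem_range] at hn
    rw [Finset.mem_Icc] at hn'
    have : n = 0 := by omega
    subst this
    rw [Pool.Agent.Helper93.LP.MVs.cc_zero]
    simp

private theorem t2z_AA_cont (w : ℝ → ℝ) (T : ℝ) : Continuous (fun t : ℝ => AA w T t) := by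
  unfold AA
  refine continuous_finsetSum _ fun n _ => continuous_const.mul ?_
  unfold xp
  fun_prop

private theorem t2z_W_int {W : ℝ → ℝ} {R : ℝ} (hW : PF W R) : 0 ≤ ∫ y, W y ^ 2 :=
  integral_nonneg fun y => sq_nonneg _

private theorem t2z_sw_WR {W : ℝ → ℝ} {R : ℝ} (hW : PF W R) (hR : 0 < R) {c T : ℝ} (hL : 0 < Real.log T) (hc : R < c) :
    WR (sw W c T) ((c - R) / Real.log T) ((c + R) / Real.log T) := by
  refine ⟨?_, by have : 0 < c - R := by linarith
                 positivity, by gcongr; linarith, ?_⟩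
  · unfold sw
    exact contDiff_const.mul (hW.smooth.comp ((contDiff_const.mul contDiff_id).sub contDiff_const))
  · intro x hx
    have h1 : W (Real.log T * x - c) ≠ 0 := by
      intro h
      apply hx
      unfold sw
      rw [h, mul_zero]
    have h2 := abs_le.mp (hW.supp _ h1)
    constructor
    · rw [div_le_iff₀ hL]
      nlinarith [h2.1]
    · rw [le_div_iff₀ hL]
      nlinarith [h2.2]

open Pool.Agent.Helper57.FL (ff) in
private theorem t2z_subst (W : ℝ → ℝ) (c T : ℝ) (hL : 0 < Real.log T) :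
    ∫ x : ℝ, sw W c T x ^ 2 * ff T x = ∫ y : ℝ, W y ^ 2 * ff T ((y + c) / Real.log T) := by
  obtain ⟨F, hF⟩ : ∃ F : ℝ → ℝ, F = fun y => W y ^ 2 * ff T ((y + c) / Real.log T) := ⟨_, rfl⟩
  have e1 : (fun x : ℝ => sw W c T x ^ 2 * ff T x) = fun x => Real.log T * (fun z => F (z - c)) (Real.log T * x) := by
    funext x
    rw [hF]
    show (Real.sqrt (Real.log T) * W (Real.log T * x - c)) ^ 2 * ff T x =
      Real.log T * (W (Real.log T * x - c) ^ 2 * ff T ((Real.log T * x - c + c) / Real.log T))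
    rw [mul_pow, Real.sq_sqrt hL.le]
    have e2 : (Real.log T * x - c + c) / Real.log T = x := by
      field_simp
      ring
    rw [e2]
    ring
  have e3 : (fun y : ℝ => W y ^ 2 * ff T ((y + c) / Real.log T)) = F := by rw [hF]
  rw [e1, e3, integral_const_mul, MeasureTheory.Measure.integral_comp_mul_left (fun z => F (z - c)), integral_sub_right_eq_self F c,
    smul_eq_mul, abs_of_pos (inv_pos.mpr hL)]
  field_simp

open Pool.Agent.Helper57.FL (ff) in
theorem zeros2 {c₀ γ : ℝ} (hPL : PL c₀ γ) (hc0 : 0 < c₀) (hc1 : c₀ ≤ 1 / 4) (hγ : 0 ≤ γ) (hγ1 : γ ≤ 1 / 2)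
    {W : ℝ → ℝ} {R : ℝ} (hW : PF W R) (hR : 0 < R) {κ ε : ℝ} (hκ : 0 < κ) (hε : 0 < ε) :
    ∀ᶠ T : ℝ in atTop, ∀ c : ℝ, (1 + κ) * Real.log T ≤ c → c ≤ (1 + c₀ / 2) * Real.log T →
    (1 / 2 + γ) * (∫ y, W y ^ 2) - ε ≤ ∫ y, W y ^ 2 * ff T ((y + c) / Real.log T) := by
  obtain ⟨V, hV⟩ : ∃ V : ℝ, V = ∫ y, W y ^ 2 := ⟨_, rfl⟩
  have hV0 : 0 ≤ V := by rw [hV]; exact t2z_W_int hW
  rw [← hV]
  obtain ⟨δ, hδ, hδ2, hpr⟩ := primes2 hPL hc0 hc1 hγ hγ1 hW hR hκ (ε := ε / 4) (by linarith)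
  rw [← hV] at hpr
  obtain ⟨k, hkd⟩ : ∃ k : ℝ, k = ε / (4 * (V + 1)) := ⟨_, rfl⟩
  have hk : 0 < k := by rw [hkd]; positivity
  have hkV : k * (V + 1) = ε / 4 := by
    rw [hkd]
    field_simp
  obtain ⟨η, hηd⟩ : ∃ η : ℝ, η = Real.sqrt (ε / 4 / (1 + 1 / k)) := ⟨_, rfl⟩
  have hη : 0 < η := by rw [hηd]; positivity
  have hη2 : (1 + 1 / k) * η ^ 2 = ε / 4 := by
    rw [hηd, Real.sq_sqrt (by positivity)]
    field_simp
  have hef := ef_s hW hR (κ := 1) (by norm_num) hδ hδ2 hη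
  have hlog : Tendsto Real.log atTop atTop := Real.tendsto_log_atTop
  filter_upwards [hpr, hef, eventually_ge_atTop (3 : ℝ), hlog.eventually_gt_atTop (R + 2 * R + 1)] with T hT hE hT3 hLR c hc1v hc2
  have hT1 : 1 < T := by linarith
  have hT0 : 0 < T := by linarith
  have hL : 0 < Real.log T := Real.log_pos hT1
  have hcL : Real.log T ≤ c := by nlinarith
  have hcR : R < c := by linarith
  have hc3 : c ≤ 3 / 2 * Real.log T := by nlinarith
  have hWR := t2z_sw_WR hW hR (T := T) hL hcR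
  have hSW : Pool.Agent.Helper57.FL.SW (sw W c T) ((c - R) / Real.log T) ((c + R) / Real.log T) := hWR
  have hb2 : (c + R) / Real.log T < 2 := by
    rw [div_lt_iff₀ hL]
    linarith
  have hWC := Pool.Agent.Helper93.LP.WR.toWC hWR
  have hAc := t2z_AA_cont (sw W c T) T
  have hGc : Continuous (Pool.Agent.Helper93.LP.GG T (fun x => ((sw W c T x : ℝ) : ℂ))) := Pool.Agent.Helper93.LP.GG_cont hWC T
  have hGc2 : Continuous (fun t => ‖Pool.Agent.Helper93.LP.GG T (fun x => ((sw W c T x : ℝ) : ℂ)) t‖ ^ 2) := hGc.norm.pow 2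
  obtain ⟨p1, p2⟩ := Pool.Agent.Helper57.FL.ff_planch hSW hT3
  rw [t2z_subst W c T hL] at p2
  rw [← p2]
  have hle : δ * T ≤ (1 - δ) * T := by nlinarith
  -- pointwise
  have h1 : (∫ t in (δ * T)..((1 - δ) * T), ‖AA (sw W c T) T t‖ ^ 2) ≤
      ∫ t in (δ * T)..((1 - δ) * T), ((1 + k) * ‖Pool.Agent.Helper93.LP.GG T (fun x => ((sw W c T x : ℝ) : ℂ)) t‖ ^ 2 + (1 + 1 / k) * η ^ 2) := by
    refine intervalIntegral.integral_mono_on hle ?_ ?_ ?_
    · exact (hAc.norm.pow 2).intervalIntegrable _ _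
    · exact ((continuous_const.mul hGc2).add continuous_const).intervalIntegrable _ _
    · intro t ht
      have h2 := hE c (by rw [one_mul]; exact hcL) hc3 t ht.1 ht.2
      rw [t2z_PP_AA hWR hb2 hT1] at h2
      obtain ⟨x, hx⟩ : ∃ x : ℝ, x = ‖Pool.Agent.Helper93.LP.GG T (fun x => ((sw W c T x : ℝ) : ℂ)) t‖ := ⟨_, rfl⟩
      have h3 : ‖AA (sw W c T) T t‖ ≤ x + η := by
        have h4 : AA (sw W c T) T t = (AA (sw W c T) T t + Pool.Agent.Helper93.LP.GG T (fun x => ((sw W c T x : ℝ) : ℂ)) t) -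
            Pool.Agent.Helper93.LP.GG T (fun x => ((sw W c T x : ℝ) : ℂ)) t := by ring
        rw [h4, hx]
        refine (norm_sub_le _ _).trans ?_
        linarith
      rw [← hx]
      have h5 : ‖AA (sw W c T) T t‖ ^ 2 ≤ (x + η) ^ 2 := pow_le_pow_left₀ (norm_nonneg _) h3 2
      refine h5.trans ?_
      have h6 : 0 ≤ k * (x - η / k) ^ 2 := by positivity
      have h7 : k * (x - η / k) ^ 2 = k * x ^ 2 - 2 * x * η + 1 / k * η ^ 2 := by
        field_simp
        ring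
      nlinarith
  have h9 : (∫ t in (δ * T)..((1 - δ) * T), ((1 + k) * ‖Pool.Agent.Helper93.LP.GG T (fun x => ((sw W c T x : ℝ) : ℂ)) t‖ ^ 2 + (1 + 1 / k) * η ^ 2)) =
      (1 + k) * (∫ t in (δ * T)..((1 - δ) * T), ‖Pool.Agent.Helper93.LP.GG T (fun x => ((sw W c T x : ℝ) : ℂ)) t‖ ^ 2) +
        ((1 - δ) * T - δ * T) * (ε / 4) := by
    have c1 : Continuous (fun t => (1 + k) * ‖Pool.Agent.Helper93.LP.GG T (fun x => ((sw W c T x : ℝ) : ℂ)) t‖ ^ 2) := continuous_const.mul hGc2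
    rw [intervalIntegral.integral_add (c1.intervalIntegrable _ _)
      (continuous_const.intervalIntegrable _ _), intervalIntegral.integral_const_mul, intervalIntegral.integral_const,
      hη2, smul_eq_mul]
  have h10 : (∫ t in (δ * T)..((1 - δ) * T), ‖Pool.Agent.Helper93.LP.GG T (fun x => ((sw W c T x : ℝ) : ℂ)) t‖ ^ 2) ≤
      ∫ t : ℝ, ‖Pool.Agent.Helper93.LP.GG T (fun x => ((sw W c T x : ℝ) : ℂ)) t‖ ^ 2 := by
    rw [intervalIntegral.integral_of_le hle]
    exact setIntegral_le_integral p1 (Filter.Eventually.of_forall fun t => by positivity)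
  obtain ⟨I, hI⟩ : ∃ I : ℝ, I = ∫ t : ℝ, ‖Pool.Agent.Helper93.LP.GG T (fun x => ((sw W c T x : ℝ) : ℂ)) t‖ ^ 2 := ⟨_, rfl⟩
  have hI0 : 0 ≤ I := by
    rw [hI]
    exact integral_nonneg fun t => by positivity
  rw [← hI] at h10 ⊢
  obtain ⟨X, hX⟩ : ∃ X : ℝ, X = (1 / T) * I := ⟨_, rfl⟩
  have hX0 : 0 ≤ X := by rw [hX]; positivity
  rw [← hX]
  obtain ⟨U, hU⟩ : ∃ U : ℝ, U = (1 / 2 + γ) * V := ⟨_, rfl⟩
  have hTc := hT c hc1v hc2
  rw [← hU] at hTc ⊢
  have hUV : U ≤ V := by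
    rw [hU]
    nlinarith
  have h12 : U - ε / 4 ≤ (1 + k) * X + ε / 4 := by
    refine hTc.trans ?_
    have h13 : (1 / T) * (∫ t in (δ * T)..((1 - δ) * T), ‖AA (sw W c T) T t‖ ^ 2) ≤
        (1 / T) * ((1 + k) * I + T * (ε / 4)) := by
      refine mul_le_mul_of_nonneg_left ?_ (by positivity)
      refine h1.trans ?_
      rw [h9]
      have h14 : ((1 - δ) * T - δ * T) * (ε / 4) ≤ T * (ε / 4) := by
        refine mul_le_mul_of_nonneg_right ?_ (by linarith)
        nlinarith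
      have h15 := mul_le_mul_of_nonneg_left h10 (by linarith : (0:ℝ) ≤ 1 + k)
      linarith
    refine h13.trans (le_of_eq ?_)
    rw [hX]
    field_simp
  by_cases hneg : U - ε ≤ 0
  · linarith
  · push Not at hneg
    have h11 : k * (U - ε) ≤ ε / 4 := by
      rw [← hkV]
      refine mul_le_mul_of_nonneg_left ?_ hk.le
      linarith
    have h16 : (1 + k) * (U - ε) ≤ (1 + k) * X := by nlinarith
    exact le_of_mul_le_mul_left h16 (by linarith)


theorem pointwise2 {c₀ γ : ℝ} (hPL : PL c₀ γ) (hc0 : 0 < c₀) (hγ : 0 < γ) : ∃ c : ℝ, 0 < c ∧ ∀ ε : ℝ, 0 < ε →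
    ∀ᶠ T : ℝ in atTop, ∀ α : ℝ, 1 + ε ≤ α → α ≤ 1 + c → (bg T α).im = 0 ∧ 1 / 2 + c ≤ (bg T α).re := by
  set c₁ : ℝ := min c₀ (1 / 4) with hc1
  set γ₁ : ℝ := min γ (1 / 2) with hγ1
  have hc1p : 0 < c₁ := by positivity
  have hγ1p : 0 < γ₁ := by positivity
  have hc14 : c₁ ≤ 1 / 4 := min_le_right _ _
  have hγ12 : γ₁ ≤ 1 / 2 := min_le_right _ _
  have hPL1 : PL c₁ γ₁ := PL.mono hPL (min_le_left _ _) (min_le_left _ _)
  refine ⟨min (c₁ / 2) (γ₁ / 2), by positivity, fun ε hε => ?_⟩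
  obtain ⟨W, R, hR, hW, hW2, hWI⟩ := profile (ε := γ₁ / 4) (by positivity)
  filter_upwards [zeros2 hPL1 hc1p hc14 hγ1p.le hγ12 hW hR hε (ε := γ₁ / 4) (by positivity),
    eventually_ge_atTop (3:ℝ)] with T hT hT3 α hα1 hα2
  obtain ⟨hi, he⟩ := bg_eq hT3 α
  have hL : 0 < Real.log T := Real.log_pos (by linarith)
  have hff : ∀ x, 0 ≤ Pool.Agent.Helper57.FL.ff T x := fun x => Pool.Agent.Helper57.FL.ff_nonneg (by linarith) x
  rw [he]
  refine ⟨Complex.ofReal_im _, ?_⟩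
  rw [Complex.ofReal_re]
  have hα3 : α ≤ 1 + c₁ / 2 := hα2.trans (by linarith [min_le_left (c₁ / 2) (γ₁ / 2)])
  have h1 := hT (α * Real.log T) (by nlinarith) (by nlinarith)
  have h2 : ∀ y : ℝ, (y + α * Real.log T) / Real.log T = α + y / Real.log T := by
    intro y
    field_simp
    ring
  simp only [h2] at h1
  have h4 : ∫ y, W y ^ 2 * Pool.Agent.Helper57.FL.ff T (α + y / Real.log T) ≤
      ∫ y, Real.exp (-2 * |y|) * Pool.Agent.Helper57.FL.ff T (α + y / Real.log T) := by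
    refine integral_mono_of_nonneg (Eventually.of_forall fun y => mul_nonneg (sq_nonneg _) (hff _)) hi (Eventually.of_forall fun y => ?_)
    exact mul_le_mul_of_nonneg_right (hW2 y) (hff _)
  have h5 : (1 / 2 + γ₁) * (1 - γ₁ / 4) ≤ (1 / 2 + γ₁) * ∫ y, W y ^ 2 := mul_le_mul_of_nonneg_left hWI (by linarith)
  have h6 : min (c₁ / 2) (γ₁ / 2) ≤ γ₁ / 2 := min_le_right _ _
  nlinarith

end Pool.Agent.AP.Tile
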